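import Pool.Agent.H73.AL.Hol

/-!
# Reduction of the Hasse-Weil conjecture to number fields of degree divisible by `M`

`E : y² = x³ + A x + B` with `A, B ∈ ℤ`, `T` a finite set of primes containing the primes below
`101` and those dividing `4A³ + 27B²`, `M` any positive integer.

* For every number field `K` there are finitely many number fields `F_i`, `G_j`, each equal to `ℚ`
  or of degree divisible by `M`, with `Λ(E/K,s) ∏ Λ(E/F_i,s) = ∏ Λ(E/G_j,s)`, the constants `A`
  and the root numbers being related in the same way.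
* If the Hasse-Weil conjecture for `E` holds over `ℚ` and over all number fields of degree
  divisible by `M`, then for every number field `K` the function `Λ(E/K,s)` is a quotient of two
  entire functions, the denominator without zeros in `Re s > 3/2`, and the functional equation
  holds.
-/

namespace Pool.Agent.Results.MP_bf9450_nt.DegreeDivisible

open NumberField IsDedekindDomain

open scoped TensorProduct

/-- A number field. -/
structure NumField where
  carrier : Type
  [field : Field carrier]
  [numberField : NumberField carrier]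

attribute [instance] NumField.field NumField.numberField

/-! ### The Euler product at the places not above `T` -/

section Places

variable {K : Type} [Field K] [NumberField K]

/-- The finite place `v` of `K` does not lie above a prime of `T`. -/
def AwayFrom (T : Finset ℕ) (v : HeightOneSpectrum (𝓞 K)) : Prop :=
  ∀ p ∈ T, ((p : ℕ) : 𝓞 K) ∉ v.asIdeal

/-- The norm `N v` of a finite place. -/
noncomputable def norm (v : HeightOneSpectrum (𝓞 K)) : ℕ := Ideal.absNorm v.asIdeal

/-- The number of affine points of `y² = x³ + A x + B` over the residue field `𝓞 K / v`; with the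
point at infinity `#E(k_v)` is this number plus one. -/
noncomputable def affinePoints (A B : ℤ) (v : HeightOneSpectrum (𝓞 K)) : ℕ :=
  Nat.card {P : (𝓞 K ⧸ v.asIdeal) × (𝓞 K ⧸ v.asIdeal) //
    P.2 ^ 2 = P.1 ^ 3 + (A : 𝓞 K ⧸ v.asIdeal) * P.1 + (B : 𝓞 K ⧸ v.asIdeal)}

/-- `a_v = N v + 1 - #E(k_v)`, the trace of Frobenius at a place of good reduction. -/
noncomputable def trace (A B : ℤ) (v : HeightOneSpectrum (𝓞 K)) : ℝ :=
  (norm v : ℝ) - (affinePoints A B v : ℝ)

/-- The Euler factor `(1 - a_v N v^(-s) + N v^(1-2s))⁻¹` of `L(E/K, s)` at a good place `v`. -/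
noncomputable def eulerFactor (A B : ℤ) (v : HeightOneSpectrum (𝓞 K)) (s : ℂ) : ℂ :=
  (1 - (trace A B v : ℂ) * (norm v : ℂ) ^ (-s) + (norm v : ℂ) ^ (1 - 2 * s))⁻¹

end Places

/-- The product of the Euler factors of `L(E/K, s)` at the finite places of `K` not above `T`. -/
noncomputable def goodPart (A B : ℤ) (K : Type) [Field K] [NumberField K] (T : Finset ℕ)
    (s : ℂ) : ℂ :=
  ∏' v : {v : HeightOneSpectrum (𝓞 K) // AwayFrom T v}, eulerFactor A B v.1 s

/-! ### The local invariants at the places above `T` -/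

/-- The local invariants of a curve `E` over `ℚ` at the places above the primes of `T`.  For
`p ∈ T` and a finite commutative `ℚ_p`-algebra `R` (used for `R = ℚ_p ⊗ K`, the product of the
completions `K_v` with `v ∣ p`): the product `sgn p R` of the local root numbers of `E`, the norm
`cond p R` of the conductor of `E` and the product `pol p R` of the inverse Euler factors
`det (1 - Frob_v X^(f_v))`, as a polynomial in `X = p^(-s)`, over the factors of `R`.  They depend
only on the isomorphism class of `R` and are multiplicative on products. -/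
structure LocalData (T : Finset ℕ) where
  sgn : ∀ (p : ℕ) [Fact p.Prime] (R : Type) [CommRing R] [Algebra ℚ_[p] R], ℤ
  cond : ∀ (p : ℕ) [Fact p.Prime] (R : Type) [CommRing R] [Algebra ℚ_[p] R], ℝ
  pol : ∀ (p : ℕ) [Fact p.Prime] (R : Type) [CommRing R] [Algebra ℚ_[p] R], Polynomial ℂ
  sgn_iso : ∀ (p : ℕ) [Fact p.Prime] (R R' : Type) [CommRing R] [Algebra ℚ_[p] R]
    [CommRing R'] [Algebra ℚ_[p] R'] [Module.Finite ℚ_[p] R] [Module.Finite ℚ_[p] R'],
    Nonempty (R ≃ₐ[ℚ_[p]] R') → sgn p R = sgn p R'
  cond_iso : ∀ (p : ℕ) [Fact p.Prime] (R R' : Type) [CommRing R] [Algebra ℚ_[p] R]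
    [CommRing R'] [Algebra ℚ_[p] R'] [Module.Finite ℚ_[p] R] [Module.Finite ℚ_[p] R'],
    Nonempty (R ≃ₐ[ℚ_[p]] R') → cond p R = cond p R'
  pol_iso : ∀ (p : ℕ) [Fact p.Prime] (R R' : Type) [CommRing R] [Algebra ℚ_[p] R]
    [CommRing R'] [Algebra ℚ_[p] R'] [Module.Finite ℚ_[p] R] [Module.Finite ℚ_[p] R'],
    Nonempty (R ≃ₐ[ℚ_[p]] R') → pol p R = pol p R'
  sgn_prod : ∀ (p : ℕ) [Fact p.Prime] (R R' : Type) [CommRing R] [Algebra ℚ_[p] R]
    [CommRing R'] [Algebra ℚ_[p] R'] [Module.Finite ℚ_[p] R] [Module.Finite ℚ_[p] R'],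
    sgn p (R × R') = sgn p R * sgn p R'
  cond_prod : ∀ (p : ℕ) [Fact p.Prime] (R R' : Type) [CommRing R] [Algebra ℚ_[p] R]
    [CommRing R'] [Algebra ℚ_[p] R'] [Module.Finite ℚ_[p] R] [Module.Finite ℚ_[p] R'],
    cond p (R × R') = cond p R * cond p R'
  pol_prod : ∀ (p : ℕ) [Fact p.Prime] (R R' : Type) [CommRing R] [Algebra ℚ_[p] R]
    [CommRing R'] [Algebra ℚ_[p] R'] [Module.Finite ℚ_[p] R] [Module.Finite ℚ_[p] R'],
    pol p (R × R') = pol p R * pol p R'
  sgn_sq : ∀ (p : ℕ) [Fact p.Prime] (R : Type) [CommRing R] [Algebra ℚ_[p] R]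
    [Module.Finite ℚ_[p] R], sgn p R = 1 ∨ sgn p R = -1
  cond_pos : ∀ (p : ℕ) [Fact p.Prime] (R : Type) [CommRing R] [Algebra ℚ_[p] R]
    [Module.Finite ℚ_[p] R], 0 < cond p R
  pol_zero : ∀ (p : ℕ) [Fact p.Prime] (R : Type) [CommRing R] [Algebra ℚ_[p] R]
    [Module.Finite ℚ_[p] R], (pol p R).eval 0 = 1
  pol_root : ∀ (p : ℕ) [Fact p.Prime] (R : Type) [CommRing R] [Algebra ℚ_[p] R]
    [Module.Finite ℚ_[p] R] (z : ℂ), (pol p R).eval z = 0 → (p : ℝ) ^ (-(1 / 2) : ℝ) ≤ ‖z‖

section Hasse

variable {T : Finset ℕ} (D : LocalData T) (A B : ℤ) (K : Type) [Field K] [NumberField K]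

open Classical in
/-- The root number `w(E/K)`: `-1` for every infinite place, and the local signs at the primes of
`T`; the curve has good reduction elsewhere. -/
noncomputable def LocalData.rootNumber : ℂ :=
  (-1) ^ (InfinitePlace.nrRealPlaces K + InfinitePlace.nrComplexPlaces K) *
    ((∏ p ∈ T, if h : p.Prime then haveI := Fact.mk h; D.sgn p (ℚ_[p] ⊗[ℚ] K) else 1 : ℤ) : ℂ)

open Classical in
/-- The constant `A_{E/K}`: the square of the discriminant of `K` times the norm of the conductor
of `E` over `K`. -/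
noncomputable def LocalData.bigA : ℝ :=
  (NumberField.discr K : ℝ) ^ 2 *
    ∏ p ∈ T, if h : p.Prime then haveI := Fact.mk h; D.cond p (ℚ_[p] ⊗[ℚ] K) else 1

open Classical in
/-- The product of the inverse Euler factors at the places above `T`. -/
noncomputable def LocalData.badInv (s : ℂ) : ℂ :=
  ∏ p ∈ T, if h : p.Prime then haveI := Fact.mk h;
    (D.pol p (ℚ_[p] ⊗[ℚ] K)).eval ((p : ℂ) ^ (-s)) else 1

/-- The completed L-function `Λ(E/K, s)` in the half plane `Re s > 3/2` of convergence. -/
noncomputable def LocalData.completed (s : ℂ) : ℂ :=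
  ((D.bigA K : ℝ) : ℂ) ^ (s / 2) *
    ((2 * Real.pi : ℂ) ^ (-s) * Complex.Gamma s) ^ Module.finrank ℚ K *
      (goodPart A B K T s / D.badInv K s)

/-- The Hasse-Weil conjecture for `E` over `K`: `Λ(E/K, s)` extends to an entire function with
`Λ(E/K, s) = w(E/K) Λ(E/K, 2 - s)`. -/
def LocalData.HasseWeil : Prop :=
  ∃ Lam : ℂ → ℂ, Differentiable ℂ Lam ∧ (∀ s : ℂ, Lam s = D.rootNumber K * Lam (2 - s)) ∧
    ∀ s : ℂ, 3 / 2 < s.re → Lam s = D.completed A B K s

end Hasse

/-- the same local data for the helper files -/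
def LocalData.toLoc {T : Finset ℕ} (D : LocalData T) : Pool.Agent.QD.LocData T :=
  { sgn := D.sgn, cond := D.cond, pol := D.pol, sgn_iso := D.sgn_iso, cond_iso := D.cond_iso
    pol_iso := D.pol_iso, sgn_prod := D.sgn_prod, cond_prod := D.cond_prod
    pol_prod := D.pol_prod, sgn_sq := D.sgn_sq, cond_pos := D.cond_pos, pol_zero := D.pol_zero
    pol_root := D.pol_root }

open Pool.Agent.H73.AL in
/-- (1) For every number field `K` and `M > 0` there are number fields `F ∈ X` and `G ∈ Y`, each of
degree one or of degree divisible by `M`, such that `Λ(E/K,s) ∏ Λ(E/F,s) = ∏ Λ(E/G,s)` for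
`Re s > 3/2`, and the same relations hold for the degrees, the root numbers and the constants `A`.
(2) If the Hasse-Weil conjecture for `E` holds over `ℚ` and over every number field of degree
divisible by `M`, then for every number field `K` there are entire functions `f` and `g`, `g`
without zeros in `Re s > 3/2`, such that `Λ(E/K,s) = f(s)/g(s)` for `Re s > 3/2` and
`f(s)/g(s) = w(E/K) f(2-s)/g(2-s)`. -/
theorem result (A B : ℤ) (T : Finset ℕ) (hTp : ∀ p ∈ T, p.Prime)
    (hT : ∀ p : ℕ, p.Prime → p < 101 → p ∈ T)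
    (hbad : ∀ p : ℕ, p.Prime → (p : ℤ) ∣ 4 * A ^ 3 + 27 * B ^ 2 → p ∈ T)
    (D : LocalData T) (M : ℕ) (hM : 0 < M) :
    (∀ (K : Type) [Field K] [NumberField K], ∃ X Y : List NumField,
      (∀ F ∈ X ++ Y, Module.finrank ℚ F.carrier = 1 ∨ M ∣ Module.finrank ℚ F.carrier) ∧
      Module.finrank ℚ K + (X.map fun F => Module.finrank ℚ F.carrier).sum =
        (Y.map fun F => Module.finrank ℚ F.carrier).sum ∧
      D.rootNumber K * (X.map fun F => D.rootNumber F.carrier).prod =
        (Y.map fun F => D.rootNumber F.carrier).prod ∧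
      D.bigA K * (X.map fun F => D.bigA F.carrier).prod =
        (Y.map fun F => D.bigA F.carrier).prod ∧
      ∀ s : ℂ, 3 / 2 < s.re →
        D.completed A B K s * (X.map fun F => D.completed A B F.carrier s).prod =
          (Y.map fun F => D.completed A B F.carrier s).prod) ∧
    (D.HasseWeil A B ℚ →
      (∀ (F : Type) [Field F] [NumberField F], M ∣ Module.finrank ℚ F → D.HasseWeil A B F) →
      ∀ (K : Type) [Field K] [NumberField K], ∃ f g : ℂ → ℂ,
        Differentiable ℂ f ∧ Differentiable ℂ g ∧ (∀ s : ℂ, 3 / 2 < s.re → g s ≠ 0) ∧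
        (∀ s : ℂ, 3 / 2 < s.re → g s * D.completed A B K s = f s) ∧
        ∀ s : ℂ, f s * g (2 - s) = D.rootNumber K * (f (2 - s) * g s)) := by
  obtain ⟨a, ha, hLT⟩ := exists_LT A B T hT hbad
  have hL : ∀ (F : Type) [Field F] [NumberField F] (s : ℂ),
      D.completed A B F s = D.toLoc.Lam a F s := by
    intro F _ _ s
    unfold Pool.Agent.QD.LocData.Lam
    rw [← hLT F]
    rfl
  have hw : ∀ (F : Type) [Field F] [NumberField F], D.rootNumber F = D.toLoc.w F :=
    fun F _ _ => rfl
  have hA : ∀ (F : Type) [Field F] [NumberField F], D.bigA F = D.toLoc.A F := fun F _ _ => rfl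
  constructor
  · intro K _ _
    obtain ⟨X, Y, h1, h2⟩ := alg_marks T ⟨K⟩ M hM.ne'
    let t : NF → NumField := fun F => ⟨F.F⟩
    refine ⟨X.map t, Y.map t, ?_, ?_, ?_, ?_, ?_⟩
    · intro F hF
      rw [← List.map_append] at hF
      obtain ⟨F', hF', rfl⟩ := List.mem_map.1 hF
      exact h1 F' hF'
    · rw [List.map_map, List.map_map]
      have := rel_finrank h2
      rw [List.map_cons, List.sum_cons] at this
      exact this
    · rw [List.map_map, List.map_map]
      have := rel_w D.toLoc h2
      rw [List.map_cons, List.prod_cons] at this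
      exact this
    · rw [List.map_map, List.map_map]
      have := rel_A D.toLoc h2
      rw [List.map_cons, List.prod_cons] at this
      exact this
    · intro s hs
      rw [List.map_map, List.map_map]
      have := rel_Lam D.toLoc hTp hT ha h2 hs
      rw [List.map_cons, List.prod_cons] at this
      simp only [← hL] at this
      exact this
  · intro HQ H K _ _
    have hHW : ∀ (F : Type) [Field F] [NumberField F], D.HasseWeil A B F →
        HWo D.toLoc a F := by
      intro F _ _ h
      obtain ⟨Lam, g1, g2, g3⟩ := h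
      exact ⟨Lam, g1, g2, fun s hs => by rw [g3 s hs, hL]⟩
    obtain ⟨f, g, h1, h2, h3, h4, h5⟩ := alg_MERo D.toLoc hTp hT ha M hM.ne' (hHW ℚ HQ)
      (fun F _ _ h => hHW F (H F h)) K
    exact ⟨f, g, h1, h2, h3, fun s hs => by rw [hL]; exact h4 s hs, h5⟩

end Pool.Agent.Results.MP_bf9450_nt.DegreeDivisible
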