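import Pool.Agent.Helper37.Af.Main
import Pool.Agent.Helper37.Fd.Almost
import Pool.Agent.Helper37.Mv.Rel
import Pool.Agent.Helper37.Mv.Poly

/-!
# MP_6cbef8_nt: finitely many Frobenii in any given set decide

`G` is a profinite group with finitely many open subgroups of each index (in the application the
Galois group of the maximal extension of `F` unramified outside a finite set of places), `D` any
subset (the Frobenius elements of a set of places), `E` a finite extension of `ℚ_p`.  There is a
finite subset `R` of `D`, depending only on `G`, `D`, `E`, the numbers of representations, the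
dimensions and a bound `d` for degrees, such that a polynomial relation of degree at most `d`
between strongly irreducible two-dimensional `V i`, none a twist of another one, and `T j`, which
holds on `R`, and which is not trivial in the `V i` at almost all points of the closure of `D`,
forces some `V i` to be potentially contained in some `T j`.
-/

set_option autoImplicit false
open MeasureTheory Pool.Agent.Helper27.FM Pool.Agent.Helper37.Af Pool.Agent.Helper37.Fd
  Pool.Agent.Helper37.Mv

namespace Pool.Agent.Results.MP_6cbef8_nt.FiniteCheck

theorem result (p : ℕ) [hp : Fact p.Prime]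
    -- the coefficient field, a finite extension of `ℚ_p`
    {E : Type*} [NontriviallyNormedField E] [IsUltrametricDist E] [ProperSpace E]
    [NormedAlgebra ℚ_[p] E]
    -- a profinite group with finitely many open subgroups of each index, with a Haar measure
    {G : Type*} [Group G] [TopologicalSpace G] [IsTopologicalGroup G] [CompactSpace G]
    [TotallyDisconnectedSpace G] [MeasurableSpace G] [BorelSpace G]
    (μ : Measure G) [μ.IsHaarMeasure] [μ.Regular]
    (hfin : ∀ m : ℕ, {U : Subgroup G | IsOpen (U : Set G) ∧ U.index ≤ m}.Finite)
    -- a subset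
    (D : Set G)
    -- index sets, dimensions and a bound for the degree
    {ι : Type*} [Finite ι] {J : Type*} [Finite J] (n : J → ℕ) (d : ℕ) :
    ∃ R : Set G, R ⊆ D ∧ R.Finite ∧
      ∀ (V : ι → G →* GL (Fin 2) E) (T : ∀ j, G →* GL (Fin (n j)) E)
        (P : MvPolynomial (Vars ι J n) E),
        (∀ i, Continuous (V i)) → (∀ i, StronglyIrreducible (V i)) →
        (∀ i k, i ≠ k → ¬ IsTwist (V i) (V k)) → (∀ j, Continuous (T j)) →
        (∀ i j, ¬ AdOccurs (V i) (T j) ∨
          (Semisimple (T j) ∧ IdempotentGenerated p (V i) (T j))) →
        P.totalDegree ≤ d →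
        (∀ r ∈ R, MvPolynomial.eval (allEntries (fun i => (V i r : Matrix (Fin 2) (Fin 2) E))
          (fun j => T j r)) P = 0) →
        μ {g | g ∈ closure D ∧ NontrivialAt V T P g} ≠ 0 →
        ∃ i j, PotentiallyContained (V i) (T j) := by
  obtain ⟨R, hRD, hRf, hR⟩ := almost_determination p E μ hfin D (Module.finrank E
    (MvPolynomial.restrictTotalDegree (Vars ι J n) E d))
  refine ⟨R, hRD, hRf, fun V T P hV hirr htw hT h hP hr hne => ?_⟩
  obtain ⟨f, S, hS, hfr, hSf, hf⟩ := exists_polym hV hT d P hP
  have hf0 := hR f S hS hfr hSf (fun r hrR => by rw [hf]; exact hr r hrR)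
  by_contra hcon
  push Not at hcon
  have hocc : ∀ i j, ¬ AdOccurs (V i) (T j) := by
    intro i j hij
    rcases h i j with h1 | ⟨h1, h2⟩
    · exact h1 hij
    · exact hcon i j (contained_of_adOccurs p (hV i) (hirr i) (hT j) h1 h2 hij)
  refine hne (measure_mono_null ?_ (measure_union_null hf0
    (no_relation p μ hV hirr htw hT hocc P)))
  rintro g ⟨hgD, hg⟩
  by_cases hfg : f g = 0
  · exact Or.inr ⟨by rw [← hf]; exact hfg, hg⟩
  · exact Or.inl ⟨hgD, hfg⟩

end Pool.Agent.Results.MP_6cbef8_nt.FiniteCheck
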